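import Pool.Agent.H65.CRG.TD
import Pool.Agent.H91.CRZ.B

/-!
# The auxiliary function far to the right (general degree)
-/

set_option autoImplicit false
set_option linter.unusedVariables false

open NumberField NumberField.InfinitePlace Complex Filter Topology MeasureTheory
open Pool.Agent.H28.RC Pool.Agent.H25.HK Pool.Agent.H37.CV Pool.Agent.H65.CRZ Pool.Agent.H65.CRG

namespace Pool.Agent.H11.CRG

/-- Cauchy's bound for the derivatives -/
lemma iter_le {Z : ℂ → ℂ} (hZ : Differentiable ℂ Z) {C : ℝ}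
    (h : ∀ s : ℂ, 3 / 2 ≤ s.re → ‖Z s - 1‖ ≤ C * (2 : ℝ) ^ (-s.re)) (hC : 0 ≤ C) (i : ℕ) {s : ℂ}
    (hs : 5 / 2 ≤ s.re) :
    ‖iteratedDeriv (i + 1) Z s‖ ≤ (i + 1).factorial * (2 * C) * (2 : ℝ) ^ (-s.re) := by
  have h1 : iteratedDeriv (i + 1) Z s = iteratedDeriv (i + 1) (fun z => Z z - 1) s := by
    rw [iteratedDeriv_succ', iteratedDeriv_succ']
    have : deriv (fun z => Z z - 1) = deriv Z := by
      funext z
      exact deriv_sub_const _
    rw [this]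
  have h2 := Complex.norm_iteratedDeriv_le_of_forall_mem_sphere_norm_le (f := fun z => Z z - 1)
    (c := s) (R := 1) (C := 2 * C * (2 : ℝ) ^ (-s.re)) (i + 1) one_pos
    (hZ.sub_const 1).diffContOnCl (by
      intro z hz
      rw [mem_sphere_iff_norm] at hz
      have h3 : |(z - s).re| ≤ 1 := (Complex.abs_re_le_norm _).trans hz.le
      rw [Complex.sub_re, abs_le] at h3
      refine (h z (by linarith [h3.1])).trans ?_
      have h4 : (2 : ℝ) ^ (-z.re) ≤ 2 * (2 : ℝ) ^ (-s.re) := by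
        calc (2 : ℝ) ^ (-z.re) ≤ (2 : ℝ) ^ (1 + -s.re) :=
              Real.rpow_le_rpow_of_exponent_le one_le_two (by linarith [h3.1])
          _ = 2 * (2 : ℝ) ^ (-s.re) := by rw [Real.rpow_add two_pos, Real.rpow_one]
      calc C * (2 : ℝ) ^ (-z.re) ≤ C * (2 * (2 : ℝ) ^ (-s.re)) :=
            mul_le_mul_of_nonneg_left h4 hC
        _ = _ := by ring)
  rw [h1]
  refine h2.trans (le_of_eq ?_)
  rw [one_pow, div_one]
  ring

/-- the logarithm near one -/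
lemma log_near {x : ℝ} (hx : 1 / 2 ≤ x) : |Real.log x| ≤ 2 * |x - 1| := by
  have h0 : 0 < x := by linarith
  have h1 := Real.log_le_sub_one_of_pos h0
  have h2 := Real.log_le_sub_one_of_pos (inv_pos.2 h0)
  rw [Real.log_inv] at h2
  have h3 : x⁻¹ - 1 ≤ 2 * |x - 1| := by
    have h4 : x⁻¹ - 1 = (1 - x) / x := by
      rw [sub_div, div_self h0.ne', one_div]
    rw [h4, div_le_iff₀ h0]
    have h5 : 1 - x ≤ |x - 1| := by
      rw [abs_sub_comm]
      exact le_abs_self _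
    have h6 := abs_nonneg (x - 1)
    nlinarith
  have h7 : x - 1 ≤ |x - 1| := le_abs_self _
  have h8 := abs_nonneg (x - 1)
  rw [abs_le]
  constructor <;> linarith

section

variable {K : Type} [Field K] [NumberField K]

/-- the mollifier is entire -/
lemma ml_diff (M σ₀ : ℝ) (ψ : Ideal (𝓞 K) → ℂ) : Differentiable ℂ (ml M σ₀ ψ) := by
  intro s
  unfold ml
  refine DifferentiableAt.fun_sum fun S _ => ?_
  refine DifferentiableAt.const_mul ?_ _
  refine DifferentiableAt.const_cpow ?_ (Or.inl ?_)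
  · exact (((differentiableAt_id.add_const _).sub_const _)).neg
  · exact_mod_cast (Pool.Agent.H96.CV.nS_pos S).ne'

/-- the mollifier far to the right -/
lemma ml_near {C : ℝ} (hC : 0 ≤ C)
    (hH : ∀ (M : ℝ) (χ : RCC K) (c : Finset (PrI K) → ℂ) (s : ℂ), 3 / 2 ≤ s.re →
      (∀ S, ‖c S‖ ≤ 1) → c ∅ = 1 → 1 ≤ M →
      ‖(∑ S ∈ DM K M, c S * χ.ψ (idS S) * ((nS np S : ℝ) : ℂ) ^ (-s)) - 1‖ ≤
        C * (2 : ℝ) ^ (-s.re)) {M σ₀ : ℝ} (hM : 1 ≤ M) (hσ : σ₀ ≤ 1 / 2) (χ : RCC K) {s : ℂ}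
    (hs : 3 / 2 ≤ s.re) : ‖ml M σ₀ χ.ψ s - 1‖ ≤ C * (2 : ℝ) ^ (-s.re) := by
  have hre : (s + 1 / 2 - σ₀).re = s.re + 1 / 2 - σ₀ := by simp
  have h1 := hH M χ (fun S => (xw K M S : ℂ)) (s + 1 / 2 - σ₀) (by rw [hre]; linarith)
    (fun S => by
      rw [Complex.norm_real, Real.norm_eq_abs]
      exact Pool.Agent.H91.CRZ.abs_xw_le hM S)
    (by
      have h2 := (a_CX (PrI K) np (PM K M) M Pool.Agent.H96.CV.two_le_np hM).1
      change ((xS np (PM K M) M ∅ : ℝ) : ℂ) = 1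
      rw [h2, Complex.ofReal_one]) hM
  rw [hre] at h1
  refine h1.trans (mul_le_mul_of_nonneg_left ?_ hC)
  exact Real.rpow_le_rpow_of_exponent_le one_le_two (by linarith)

end

/-- the auxiliary function far to the right -/
lemma vq_near {N : ℕ} {m : ℕ → ℝ} (hq : qm N m 0 = 1) {c : ℕ → ℂ → ℂ} {Z : ℂ → ℂ} {L C δ : ℝ}
    {V s : ℂ} (hV : V = ∑ i ∈ Finset.range (2 * N + 1), c i s / (L : ℂ) ^ i * iteratedDeriv i Z s)
    (hZ : Differentiable ℂ Z) (h : ∀ s : ℂ, 3 / 2 ≤ s.re → ‖Z s - 1‖ ≤ C * (2 : ℝ) ^ (-s.re))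
    (hC : 0 ≤ C) (hL : 1 ≤ L) (hs : 5 / 2 ≤ s.re) (hδ1 : δ ≤ 1) (hδ : δ ≤ (2 : ℝ) ^ (-s.re))
    (hc : ∀ i, ‖c i s - (qm N m i : ℂ)‖ ≤ δ) :
    ‖V - 1‖ ≤ (2 * C + 1 + ∑ i ∈ Finset.range (2 * N),
      (|qm N m (i + 1)| + 1) * ((i + 1).factorial * (2 * C))) * (2 : ℝ) ^ (-s.re) := by
  have hcn : ∀ i, ‖c i s‖ ≤ |qm N m i| + 1 := by
    intro i
    have h1 : c i s = (qm N m i : ℂ) + (c i s - (qm N m i : ℂ)) := by ring
    rw [h1]
    refine (norm_add_le _ _).trans ?_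
    rw [Complex.norm_real, Real.norm_eq_abs]
    linarith [hc i]
  have hp : (0 : ℝ) < (2 : ℝ) ^ (-s.re) := Real.rpow_pos_of_pos two_pos _
  have h0 : ‖c 0 s * Z s - 1‖ ≤ (2 * C + 1) * (2 : ℝ) ^ (-s.re) := by
    have h1 : c 0 s * Z s - 1 = c 0 s * (Z s - 1) + (c 0 s - (qm N m 0 : ℂ)) := by
      rw [hq]
      push_cast
      ring
    rw [h1]
    refine (norm_add_le _ _).trans ?_
    rw [norm_mul]
    have h2 := hcn 0
    rw [hq, abs_one] at h2
    have h3 := h s (by linarith)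
    have h4 := hc 0
    have h5 : ‖c 0 s‖ * ‖Z s - 1‖ ≤ (1 + 1) * (C * (2 : ℝ) ^ (-s.re)) :=
      mul_le_mul h2 h3 (norm_nonneg _) (by norm_num)
    linarith
  have hi : ∀ i : ℕ, ‖c (i + 1) s / (L : ℂ) ^ (i + 1) * iteratedDeriv (i + 1) Z s‖ ≤
      (|qm N m (i + 1)| + 1) * ((i + 1).factorial * (2 * C)) * (2 : ℝ) ^ (-s.re) := by
    intro i
    rw [norm_mul, norm_div, norm_pow, Complex.norm_real, Real.norm_eq_abs,
      abs_of_pos (by linarith)]
    have h1 : ‖c (i + 1) s‖ / L ^ (i + 1) ≤ |qm N m (i + 1)| + 1 :=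
      (div_le_self (norm_nonneg _) (one_le_pow₀ hL)).trans (hcn _)
    have h2 := iter_le hZ h hC i hs
    calc ‖c (i + 1) s‖ / L ^ (i + 1) * ‖iteratedDeriv (i + 1) Z s‖ ≤
          (|qm N m (i + 1)| + 1) * ((i + 1).factorial * (2 * C) * (2 : ℝ) ^ (-s.re)) :=
          mul_le_mul h1 h2 (norm_nonneg _) (by positivity)
      _ = _ := by ring
  rw [hV, Finset.sum_range_succ', pow_zero, div_one, iteratedDeriv_zero, add_sub_assoc]
  refine (norm_add_le _ _).trans ?_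
  have h3 : ‖∑ i ∈ Finset.range (2 * N), c (i + 1) s / (L : ℂ) ^ (i + 1) *
      iteratedDeriv (i + 1) Z s‖ ≤ (∑ i ∈ Finset.range (2 * N),
      (|qm N m (i + 1)| + 1) * ((i + 1).factorial * (2 * C))) * (2 : ℝ) ^ (-s.re) := by
    rw [Finset.sum_mul]
    exact (norm_sum_le _ _).trans (Finset.sum_le_sum fun i _ => hi i)
  linarith

theorem pf_FB (h1 : Pool.Agent.H65.CRG.T_TR) (h2 : Pool.Agent.H65.CRG.T_QI)
    (h3 : Pool.Agent.H65.CRG.T_V0) (h4 : Pool.Agent.H65.CRZ.T_H2) (h5 : Pool.Agent.H65.CRG.T_LF)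
    (h6 : Pool.Agent.H65.CRG.T_CQ) : Pool.Agent.H65.CRG.T_FB := by
  intro K _ _ _ N m R ε₁ hm hR hε hε2
  obtain ⟨c, hcd, hcV, hcB⟩ := h1 (nrComplexPlaces K) N m hm
  obtain ⟨hq0, -⟩ := h2 N m hm
  obtain ⟨C1, hC1, hL, hM⟩ := h4 K
  obtain ⟨CL, q1, -, hLF⟩ := h5 K
  obtain ⟨hn, -, c0, hc0, hcq⟩ := h6 K
  have hC10 : 0 ≤ C1 := by linarith
  obtain ⟨C2, hC2⟩ : ∃ C2 : ℝ, C2 = 2 * C1 + 1 + ∑ i ∈ Finset.range (2 * N),
      (|qm N m (i + 1)| + 1) * ((i + 1).factorial * (2 * C1)) := ⟨_, rfl⟩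
  have hC21 : 1 ≤ C2 := by
    have : 0 ≤ ∑ i ∈ Finset.range (2 * N),
      (|qm N m (i + 1)| + 1) * ((i + 1).factorial * (2 * C1)) :=
      Finset.sum_nonneg fun i _ => by positivity
    rw [hC2]
    linarith
  obtain ⟨C3, hC3⟩ : ∃ C3 : ℝ, C3 = C2 * (1 + C1) + C1 := ⟨_, rfl⟩
  have hC31 : 1 ≤ C3 := by
    rw [hC3]
    nlinarith
  -- the abscissa
  obtain ⟨b₁, hb₁⟩ : ∃ b₁ : ℝ, ∀ b : ℝ, b₁ ≤ b → C3 * (2 : ℝ) ^ (-b) ≤ 1 / 2 := by
    have h7 : Tendsto (fun b : ℝ => C3 * (2 : ℝ) ^ (-b)) atTop (𝓝 (C3 * 0)) := by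
      apply Tendsto.const_mul
      have h8 := tendsto_rpow_atTop_of_base_lt_one (1 / 2 : ℝ) (by norm_num) (by norm_num)
      refine h8.congr fun b => ?_
      rw [Real.rpow_neg two_pos.le, one_div, Real.inv_rpow two_pos.le]
    rw [mul_zero] at h7
    exact eventually_atTop.1 (h7.eventually_le_const (by norm_num))
  refine ⟨1 + 4 * C3, max 4 b₁, by linarith, le_max_left _ _, fun b T hb hT => ?_⟩
  have hb4 : 4 ≤ b := (le_max_left _ _).trans hb
  have hbC := hb₁ b ((le_max_right _ _).trans hb)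
  obtain ⟨B, hB, hBc⟩ := hcB (2 * b + 1) (T + 1)
  obtain ⟨δ, hδ⟩ : ∃ δ : ℝ, δ = (2 : ℝ) ^ (-(2 * b + 1)) := ⟨_, rfl⟩
  have hδ0 : 0 < δ := by rw [hδ]; exact Real.rpow_pos_of_pos two_pos _
  have hδ1 : δ ≤ 1 := by
    rw [hδ]
    exact Real.rpow_le_one_of_one_le_of_nonpos one_le_two (by linarith)
  -- the conductor is large
  obtain ⟨q2, hq2⟩ : ∃ q2 : ℕ, ∀ q : ℕ, q2 ≤ q → max (Real.exp 1) (Real.exp (B / δ)) ≤ c0 * q := by
    have h7 : Tendsto (fun q : ℕ => c0 * (q : ℝ)) atTop atTop :=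
      tendsto_natCast_atTop_atTop.const_mul_atTop hc0
    exact eventually_atTop.1 (h7.eventually_ge_atTop _)
  refine ⟨max q1 (max q2 1), fun q hq hqm χ hχ s hs1 hs2 hs3 => ?_⟩
  have hqq1 : q1 ≤ q := (le_max_left _ _).trans hqm
  have hqq2 : q2 ≤ q := (le_max_left _ _).trans ((le_max_right _ _).trans hqm)
  have hqq3 : 1 ≤ q := (le_max_right _ _).trans ((le_max_right _ _).trans hqm)
  have hqr : (1 : ℝ) ≤ q := by exact_mod_cast hqq3
  obtain ⟨A, hA⟩ : ∃ A : ℝ, A = cB K (qi K q) := ⟨_, rfl⟩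
  have hAq : c0 * q ≤ A := by
    rw [hA, (hcq q hq).1]
    apply mul_le_mul_of_nonneg_left _ hc0.le
    calc (q : ℝ) = (q : ℝ) ^ 1 := (pow_one _).symm
      _ ≤ (q : ℝ) ^ nrComplexPlaces K := pow_le_pow_right₀ hqr hn
  have hAe : Real.exp 1 ≤ A := ((le_max_left _ _).trans (hq2 q hqq2)).trans hAq
  have hAB : Real.exp (B / δ) ≤ A := ((le_max_right _ _).trans (hq2 q hqq2)).trans hAq
  have he : (2 : ℝ) ≤ Real.exp 1 := by
    have := Real.add_one_le_exp (1 : ℝ)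
    linarith
  have hA2 : 2 ≤ A := he.trans hAe
  have hA0 : 0 < A := by linarith
  have hlog1 : 1 ≤ Real.log A := by
    rw [Real.le_log_iff_exp_le hA0]
    exact hAe
  have hlogB : B / Real.log A ≤ δ := by
    have h7 : B / δ ≤ Real.log A := by
      rw [Real.le_log_iff_exp_le hA0]
      exact hAB
    rw [div_le_iff₀ (by linarith)]
    rw [div_le_iff₀ hδ0] at h7
    linarith
  obtain ⟨hEnt, hLFg⟩ := hLF q hq hqq1 χ hχ
  have hZd : Differentiable ℂ (Zx χ) := hEnt.1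
  have hZ1 : ∀ s : ℂ, 3 / 2 ≤ s.re → ‖Zx χ s - 1‖ ≤ C1 * (2 : ℝ) ^ (-s.re) := by
    intro s hs
    rw [hEnt.2 s (by linarith)]
    exact (hL χ s hs).2
  have hσ : sl K R q ≤ 1 / 2 := by
    have h7 : 0 ≤ R / Lg K q := by
      rw [Lg, ← hA]
      positivity
    rw [sl]
    linarith
  have hMq : 1 ≤ Mq ε₁ q := by
    rw [Mq]
    exact Real.one_le_rpow hqr (by linarith)
  -- differentiability
  have hVd : ∀ z : ℂ, 0 < z.re → DifferentiableAt ℂ (VQ (nrComplexPlaces K) N m A (Zx χ)) z :=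
    fun z hz => (hcV A (Zx χ) z (by linarith) hZd hz).2.1
  have hfd : ∀ z : ℂ, 0 < z.re → DifferentiableAt ℂ (fQ N m R ε₁ q χ) z := by
    intro z hz
    have h7 := (hVd z hz).mul ((ml_diff (Mq ε₁ q) (sl K R q) χ.ψ) z)
    rw [hA] at h7
    exact h7
  -- the function is near one
  have hnear : ∀ z : ℂ, 5 / 2 ≤ z.re → z.re ≤ 2 * b + 1 → |z.im| ≤ T + 1 →
      ‖fQ N m R ε₁ q χ z - 1‖ ≤ C3 * (2 : ℝ) ^ (-z.re) := by
    intro z hz1 hz2 hz3
    have hp : (0 : ℝ) < (2 : ℝ) ^ (-z.re) := Real.rpow_pos_of_pos two_pos _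
    have hp1 : (2 : ℝ) ^ (-z.re) ≤ 1 :=
      Real.rpow_le_one_of_one_le_of_nonpos one_le_two (by linarith)
    have h7 : ‖VQ (nrComplexPlaces K) N m A (Zx χ) z - 1‖ ≤ C2 * (2 : ℝ) ^ (-z.re) := by
      rw [hC2]
      refine vq_near (N := N) (m := m) (δ := δ) hq0 (c := c A) (L := 2 * Real.log A)
        (hcV A (Zx χ) z (by linarith) hZd (by linarith)).2.2 hZd hZ1 hC10 (by linarith) hz1 hδ1 ?_
        (fun i => (hBc A i z hA2 (by linarith) hz2 hz3).trans hlogB)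
      rw [hδ]
      exact Real.rpow_le_rpow_of_exponent_le one_le_two (by linarith)
    have h8 : ‖ml (Mq ε₁ q) (sl K R q) χ.ψ z - 1‖ ≤ C1 * (2 : ℝ) ^ (-z.re) :=
      ml_near hC10 hM hMq hσ χ (by linarith)
    have h9 : ‖ml (Mq ε₁ q) (sl K R q) χ.ψ z‖ ≤ 1 + C1 := by
      have h10 : ml (Mq ε₁ q) (sl K R q) χ.ψ z = 1 + (ml (Mq ε₁ q) (sl K R q) χ.ψ z - 1) := by ring
      rw [h10]
      refine (norm_add_le _ _).trans ?_
      rw [norm_one]
      nlinarith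
    have h10 : fQ N m R ε₁ q χ z - 1 =
        (VQ (nrComplexPlaces K) N m A (Zx χ) z - 1) * ml (Mq ε₁ q) (sl K R q) χ.ψ z +
          (ml (Mq ε₁ q) (sl K R q) χ.ψ z - 1) := by
      rw [fQ, ← hA]
      ring
    rw [h10]
    refine (norm_add_le _ _).trans ?_
    rw [norm_mul]
    have h11 : ‖VQ (nrComplexPlaces K) N m A (Zx χ) z - 1‖ *
        ‖ml (Mq ε₁ q) (sl K R q) χ.ψ z‖ ≤ C2 * (2 : ℝ) ^ (-z.re) * (1 + C1) :=
      mul_le_mul h7 h9 (norm_nonneg _) (by positivity)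
    rw [hC3]
    linarith
  refine ⟨hfd s (by linarith), fun hs4 => ?_, fun hsb => ?_⟩
  · have h7 := hnear s (by linarith) (by linarith) (by linarith)
    have hp1 : (2 : ℝ) ^ (-s.re) ≤ 1 :=
      Real.rpow_le_one_of_one_le_of_nonpos one_le_two (by linarith)
    have h10 : fQ N m R ε₁ q χ s = 1 + (fQ N m R ε₁ q χ s - 1) := by ring
    rw [h10]
    refine (norm_add_le _ _).trans ?_
    rw [norm_one]
    nlinarith
  · have hp : (0 : ℝ) < (2 : ℝ) ^ (-b) := Real.rpow_pos_of_pos two_pos _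
    have h7 := hnear s (by linarith) (by linarith) (by linarith)
    rw [hsb] at h7
    have h8 : |‖fQ N m R ε₁ q χ s‖ - 1| ≤ C3 * (2 : ℝ) ^ (-b) := by
      have h9 := abs_norm_sub_norm_le (fQ N m R ε₁ q χ s) 1
      rw [norm_one] at h9
      exact h9.trans h7
    have h9 : 1 / 2 ≤ ‖fQ N m R ε₁ q χ s‖ := by
      have := (abs_le.1 h8).1
      linarith
    have h10 : ‖deriv (fQ N m R ε₁ q χ) s‖ ≤ 2 * C3 * (2 : ℝ) ^ (-b) := by
      have h11 : deriv (fQ N m R ε₁ q χ) s = deriv (fun z => fQ N m R ε₁ q χ z - 1) s :=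
        (deriv_sub_const _).symm
      rw [h11]
      have hball : ∀ z ∈ Metric.closedBall s 1, b - 1 ≤ z.re ∧ z.re ≤ b + 1 ∧ |z.im| ≤ T + 1 := by
        intro z hz
        rw [mem_closedBall_iff_norm] at hz
        have h12 : |(z - s).re| ≤ 1 := (Complex.abs_re_le_norm _).trans hz
        have h13 : |(z - s).im| ≤ 1 := (Complex.abs_im_le_norm _).trans hz
        rw [Complex.sub_re, abs_le] at h12
        refine ⟨by linarith [h12.1], by linarith [h12.2], ?_⟩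
        have h14 : z.im = s.im + (z - s).im := by rw [Complex.sub_im]; ring
        rw [h14]
        exact (abs_add_le _ _).trans (by linarith)
      have h12 := Complex.norm_deriv_le_of_forall_mem_sphere_norm_le
        (f := fun z => fQ N m R ε₁ q χ z - 1) (c := s) (R := 1)
        (C := 2 * C3 * (2 : ℝ) ^ (-b)) one_pos (by
          apply DifferentiableOn.diffContOnCl_ball (U := Metric.closedBall s 1) _ subset_rfl
          intro z hz
          have h13 := hball z hz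
          exact ((hfd z (by linarith)).sub_const 1).differentiableWithinAt) (by
          intro z hz
          have h13 := hball z (Metric.sphere_subset_closedBall hz)
          refine (hnear z (by linarith) (by linarith) h13.2.2).trans ?_
          have h14 : (2 : ℝ) ^ (-z.re) ≤ 2 * (2 : ℝ) ^ (-b) := by
            calc (2 : ℝ) ^ (-z.re) ≤ (2 : ℝ) ^ (1 + -b) :=
                  Real.rpow_le_rpow_of_exponent_le one_le_two (by linarith [h13.1])
              _ = 2 * (2 : ℝ) ^ (-b) := by rw [Real.rpow_add two_pos, Real.rpow_one]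
          calc C3 * (2 : ℝ) ^ (-z.re) ≤ C3 * (2 * (2 : ℝ) ^ (-b)) :=
                mul_le_mul_of_nonneg_left h14 (by linarith)
            _ = _ := by ring)
      rw [div_one] at h12
      exact h12
    refine ⟨fun h0 => ?_, ?_, ?_⟩
    · rw [h0, norm_zero] at h9
      norm_num at h9
    · refine (log_near h9).trans ?_
      nlinarith
    · refine h10.trans ?_
      have h11 : 0 < C3 * (2 : ℝ) ^ (-b) := by positivity
      nlinarith

end Pool.Agent.H11.CRG
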