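import Pool.Agent.H65.CRG.TN
import Pool.Agent.H19.CRZ.SB

/-!
# The trivial bound of the sum over the ideals (general degree)
-/

set_option autoImplicit false

open NumberField NumberField.InfinitePlace Complex Filter Topology MeasureTheory
open Pool.Agent.H65.CRZ Pool.Agent.H28.RC Pool.Agent.H25.HK Pool.Agent.H37.CV Pool.Agent.H65.CRG
open Pool.Agent.H19.CRZ (nm_one sum_nm term_le sub_sum)

namespace Pool.Agent.H11.CRG

theorem pf_SB (h1 : Pool.Agent.H65.CRG.T_VG) : Pool.Agent.H65.CRG.T_SB := by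
  intro K _ _ δ a hδ hδ8 ha
  obtain ⟨C, B, hC, hB, hV⟩ := h1 (nrComplexPlaces K) a (by linarith)
  have hS := sum_nm K (x := 1 + 2 * δ) (by linarith)
  obtain ⟨S0, hS0⟩ : ∃ S0 : ℝ, S0 = ∑' I : {I : Ideal (𝓞 K) // I ≠ ⊥},
    nm I.1 ^ (-(1 + 2 * δ)) := ⟨_, rfl⟩
  have hpos : ∀ I : Ideal (𝓞 K), I ≠ ⊥ → 0 ≤ nm I ^ (-(1 + 2 * δ)) := fun I hI =>
    Real.rpow_nonneg (by
      have := nm_one hI
      linarith) _
  have hS0n : 0 ≤ S0 := by
    rw [hS0]
    exact tsum_nonneg fun I => hpos I.1 I.2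
  refine ⟨C * (S0 + 1), B, by positivity, hB, ?_⟩
  intro m s₁ s₂ Y hs1 hs2 hY
  rw [abs_le] at hs1 hs2
  obtain ⟨D, hD⟩ : ∃ D : ℝ, D = (1 + |s₁.im| + |s₂.im|) ^ B := ⟨_, rfl⟩
  have hD0 : 0 ≤ D := by rw [hD]; positivity
  have hYa : 0 < Y ^ a := Real.rpow_pos_of_pos hY _
  have key := sub_sum (p := fun I : Ideal (𝓞 K) => I ≠ ⊥)
    (q := fun t : Ideal (𝓞 K) => t ≠ ⊥ ∧ t ⊔ m = ⊤) (fun x hx => hx.1)
    (fun t => ‖((nm t : ℝ) : ℂ) ^ (-(s₁ + s₂)) * Vn (nrComplexPlaces K) s₁ s₂ (nm t ^ 2 / Y)‖)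
    (fun t => nm t ^ (-(1 + 2 * δ))) (C * D * Y ^ a) hpos hS (by positivity)
    (fun t _ => norm_nonneg _) (by
      intro t ht
      have hn1 := nm_one ht.1
      have hn0 : 0 < nm t := by linarith
      have hx : 0 < nm t ^ 2 / Y := by positivity
      have h2 := (hV s₁ s₂ (by linarith [hs1.1]) (by linarith [hs1.2]) (by linarith [hs2.1])
        (by linarith [hs2.2]) _ hx).2.2
      rw [← hD] at h2
      rw [norm_mul]
      exact term_le hn1 hY ha (by linarith [hs1.1]) (by linarith [hs2.1]) (by positivity)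
        (norm_nonneg _) h2)
  refine ⟨key.1, ?_⟩
  rw [Sn]
  have h3 := norm_tsum_le_tsum_norm key.1
  rw [← hD]
  refine h3.trans (key.2.trans ?_)
  rw [← hS0]
  have h4 : 0 ≤ C * D * Y ^ a := by positivity
  calc C * D * Y ^ a * S0 ≤ C * D * Y ^ a * (S0 + 1) := by
        apply mul_le_mul_of_nonneg_left _ h4
        linarith
    _ = C * (S0 + 1) * D * Y ^ a := by ring

end Pool.Agent.H11.CRG
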